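import Mathlib

set_option autoImplicit false

namespace Pool.Agent.Results.MP_80b119_nt.Counterexample

lemma nth_eq (k p : ℕ) (hp : p.Prime) (h : Nat.count Nat.Prime p = k) : Nat.nth Nat.Prime k = p := by
  rw [← h]
  exact Nat.nth_count hp

/-- `a(9) = (2·3·5·7·11·13·17·19·23)² + 1` is divisible by `29²`. -/
theorem result : ¬ ∀ n : ℕ, Squarefree ((∏ k ∈ Finset.range n, Nat.nth Nat.Prime k) ^ 2 + 1) := by
  intro h
  have h9 := h 9
  have e0 := nth_eq 0 2 (by norm_num) (by decide +kernel)
  have e1 := nth_eq 1 3 (by norm_num) (by decide +kernel)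
  have e2 := nth_eq 2 5 (by norm_num) (by decide +kernel)
  have e3 := nth_eq 3 7 (by norm_num) (by decide +kernel)
  have e4 := nth_eq 4 11 (by norm_num) (by decide +kernel)
  have e5 := nth_eq 5 13 (by norm_num) (by decide +kernel)
  have e6 := nth_eq 6 17 (by norm_num) (by decide +kernel)
  have e7 := nth_eq 7 19 (by norm_num) (by decide +kernel)
  have e8 := nth_eq 8 23 (by norm_num) (by decide +kernel)
  simp only [Finset.prod_range_succ, Finset.range_zero, Finset.prod_empty, e0, e1, e2, e3, e4, e5,
    e6, e7, e8] at h9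
  have := h9 29 (by norm_num)
  simp at this

end Pool.Agent.Results.MP_80b119_nt.Counterexample
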